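import Mathlib

set_option autoImplicit false
set_option linter.unusedSectionVars false

/-!
# Centered flips of non-crossing perfect matchings: definitions and the flip lemma

The `2n` points on the circle are the elements of `ZMod (2 * n)`, in clockwise order.
-/

namespace Pool.Agent.P8H54.CF

/-- the number of steps clockwise from `a` to `b` -/
def arc {N : ℕ} (a b : ZMod N) : ℕ := (b - a).val

section arc

variable {N : ℕ} [NeZero N]

theorem arc_lt (a b : ZMod N) : arc a b < N := ZMod.val_lt _

theorem arc_self (a : ZMod N) : arc a a = 0 := by simp [arc]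

theorem arc_eq_zero {a b : ZMod N} : arc a b = 0 ↔ a = b := by
  unfold arc
  rw [ZMod.val_eq_zero, sub_eq_zero]
  exact eq_comm

theorem arc_pos {a b : ZMod N} (h : a ≠ b) : 0 < arc a b :=
  Nat.pos_of_ne_zero fun h' => h (arc_eq_zero.1 h')

theorem ne_of_arc_pos {a b : ZMod N} (h : 0 < arc a b) : a ≠ b := by
  rintro rfl
  simp [arc_self] at h

/-- the basic relation between three points -/
theorem arc_add (a b c : ZMod N) :
    arc a b + arc b c = arc a c ∨ arc a b + arc b c = arc a c + N := by
  unfold arc
  have h : (c - a : ZMod N) = (b - a) + (c - b) := by ring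
  rw [h, ZMod.val_add]
  have h1 := ZMod.val_lt (b - a)
  have h2 := ZMod.val_lt (c - b)
  rcases lt_or_ge ((b - a).val + (c - b).val) N with h3 | h3
  · left
    rw [Nat.mod_eq_of_lt h3]
  · right
    rw [Nat.mod_eq_sub_mod h3, Nat.mod_eq_of_lt (by omega)]
    omega

theorem arc_symm {a b : ZMod N} (h : a ≠ b) : arc a b + arc b a = N := by
  have h1 := arc_add a b a
  have h2 := arc_pos h
  rw [arc_self] at h1
  omega

theorem arc_inj {a b c : ZMod N} (h : arc a b = arc a c) : b = c := by
  unfold arc at h
  have := ZMod.val_injective N h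
  exact sub_left_injective this

end arc

/-- A non-crossing perfect matching of `2n` points on the circle: `f x` is the partner of `x`; the
partner of a point strictly between `a` and `f a` (clockwise) is strictly between them. -/
structure NCM (n : ℕ) where
  f : ZMod (2 * n) → ZMod (2 * n)
  inv : ∀ x, f (f x) = x
  ne : ∀ x, f x ≠ x
  nc : ∀ a x, 0 < arc a x → arc a x < arc a (f a) → arc a (f x) < arc a (f a)

/-- A centered flip: the edges `ab` and `cd` of `M` (`a`, `b`, `c`, `d` in clockwise order) are
replaced by `bc` and `da`; the quadrilateral `abcd` contains the centre of the circle, that is, none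
of the four arcs between its consecutive vertices is longer than a half circle. -/
def CFlip {n : ℕ} (M M' : NCM n) : Prop := ∃ a b c d : ZMod (2 * n),
  (0 < arc a b ∧ arc a b < arc a c ∧ arc a c < arc a d) ∧
  (M.f a = b ∧ M.f c = d) ∧ (M'.f b = c ∧ M'.f d = a) ∧
  (∀ x, x ≠ a → x ≠ b → x ≠ c → x ≠ d → M'.f x = M.f x) ∧
  (arc a b ≤ n ∧ arc b c ≤ n ∧ arc c d ≤ n ∧ arc d a ≤ n)

/-- `M` contains a diameter of the circle -/
def Diam {n : ℕ} (M : NCM n) : Prop := ∃ p, arc p (M.f p) = n

/-- the weight of an oriented edge, from its even to its odd end point, of clockwise length `g` -/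
def w (n g : ℕ) : ℤ := if g < n then 7 * g - 3 * n else if g = n then 0 else 7 * g - 11 * n

/-- the potential -/
noncomputable def Psi {n : ℕ} [NeZero (2 * n)] (M : NCM n) : ℤ :=
  ∑ x : ZMod (2 * n), if x.val % 2 = 0 then w n (arc x (M.f x)) else 0

section basic

variable {n : ℕ} [NeZero (2 * n)]

theorem NCM.ext' {M M' : NCM n} (h : ∀ x, M.f x = M'.f x) : M = M' := by
  cases M; cases M'; congr; exact funext h

theorem NCM.inj (M : NCM n) {x y : ZMod (2 * n)} (h : M.f x = M.f y) : x = y := by
  rw [← M.inv x, h, M.inv]

/-- the open arc from `b` to `c` is closed -/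
def Closed (M : NCM n) (b c : ZMod (2 * n)) : Prop :=
  ∀ x, 0 < arc b x → arc b x < arc b c → 0 < arc b (M.f x) ∧ arc b (M.f x) < arc b c

theorem closed_edge (M : NCM n) (a : ZMod (2 * n)) : Closed M a (M.f a) := by
  intro x h1 h2
  refine ⟨?_, M.nc a x h1 h2⟩
  apply arc_pos
  intro h
  have : x = M.f a := by rw [h, M.inv]
  rw [this] at h2
  exact lt_irrefl _ h2

/-- The flip lemma. -/
theorem flip_exists (M : NCM n) {a b c d : ZMod (2 * n)} (h1 : 0 < arc a b)
    (h2 : arc a b < arc a c) (h3 : arc a c < arc a d) (hab : M.f a = b) (hcd : M.f c = d)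
    (hcl : Closed M b c) : ∃ M' : NCM n, M'.f a = d ∧ M'.f b = c ∧ M'.f c = b ∧ M'.f d = a ∧
      ∀ x, x ≠ a → x ≠ b → x ≠ c → x ≠ d → M'.f x = M.f x := by
  classical
  have hab' : a ≠ b := ne_of_arc_pos h1
  have hac : a ≠ c := ne_of_arc_pos (by omega)
  have had : a ≠ d := ne_of_arc_pos (by omega)
  have hbc : b ≠ c := by rintro rfl; omega
  have hbd : b ≠ d := by rintro rfl; omega
  have hcd' : c ≠ d := by rintro rfl; omega
  have hba : M.f b = a := by rw [← hab, M.inv]
  have hdc : M.f d = c := by rw [← hcd, M.inv]
  let g : ZMod (2 * n) → ZMod (2 * n) := fun x =>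
    if x = a then d else if x = b then c else if x = c then b else if x = d then a else M.f x
  have ga : g a = d := by simp [g]
  have gb : g b = c := by simp [g, hab'.symm]
  have gc : g c = b := by simp [g, hac.symm, hbc.symm]
  have gd : g d = a := by simp [g, had.symm, hbd.symm, hcd'.symm]
  have gx : ∀ x, x ≠ a → x ≠ b → x ≠ c → x ≠ d → g x = M.f x := by
    intro x k1 k2 k3 k4
    simp [g, k1, k2, k3, k4]
  have fx : ∀ x, x ≠ a → x ≠ b → x ≠ c → x ≠ d → M.f x ≠ a ∧ M.f x ≠ b ∧ M.f x ≠ c ∧ M.f x ≠ d := by
    intro x k1 k2 k3 k4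
    refine ⟨fun h => k2 ?_, fun h => k1 ?_, fun h => k4 ?_, fun h => k3 ?_⟩
    · rw [← M.inv x, h, hab]
    · rw [← M.inv x, h, hba]
    · rw [← M.inv x, h, hcd]
    · rw [← M.inv x, h, hdc]
  -- positions relative to `a`
  have pos : ∀ x y : ZMod (2 * n), arc a x ≤ arc a y → arc x y = arc a y - arc a x := by
    intro x y hxy
    have e1 := arc_add a x y
    have e2 := arc_lt a y
    have e3 := arc_lt x y
    omega
  have pos' : ∀ x y : ZMod (2 * n), arc a y < arc a x → arc x y = 2 * n + arc a y - arc a x := by
    intro x y hxy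
    have e1 := arc_add a x y
    have e2 := arc_lt a x
    have e3 := arc_lt x y
    omega
  have inj : ∀ x y : ZMod (2 * n), arc a x = arc a y → x = y := fun x y h => arc_inj h
  have ha0 : arc a a = 0 := arc_self a
  -- the three regions are closed under `M`
  have r1 : ∀ x, 0 < arc a x → arc a x < arc a b → 0 < arc a (M.f x) ∧ arc a (M.f x) < arc a b := by
    intro x k1 k2
    have := closed_edge M a x k1 (by rw [hab]; exact k2)
    rwa [hab] at this
  have r2 : ∀ x, arc a b < arc a x → arc a x < arc a c →
      arc a b < arc a (M.f x) ∧ arc a (M.f x) < arc a c := by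
    intro x k1 k2
    have e1 := pos b x k1.le
    have e2 := pos b c h2.le
    have := hcl x (by omega) (by omega)
    rcases le_or_gt (arc a b) (arc a (M.f x)) with h | h
    · have e3 := pos b (M.f x) h
      omega
    · have e3 := pos' b (M.f x) h
      have e4 := arc_lt a c
      omega
  have r3 : ∀ x, arc a c < arc a x → arc a x < arc a d →
      arc a c < arc a (M.f x) ∧ arc a (M.f x) < arc a d := by
    intro x k1 k2
    have e1 := pos c x k1.le
    have e2 := pos c d h3.le
    have := closed_edge M c x (by omega) (by rw [hcd]; omega)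
    rw [hcd] at this
    rcases le_or_gt (arc a c) (arc a (M.f x)) with h | h
    · have e3 := pos c (M.f x) h
      omega
    · have e3 := pos' c (M.f x) h
      have e4 := arc_lt a d
      omega
  have r4 : ∀ x, arc a d < arc a x → arc a d < arc a (M.f x) := by
    intro x k1
    have na : M.f x ≠ a := by
      intro h
      have : x = b := by rw [← M.inv x, h, hab]
      subst this; omega
    by_contra hcon
    have k2 : arc a (M.f x) ≤ arc a d := not_lt.1 hcon
    have k3 : 0 < arc a (M.f x) := arc_pos na.symm
    have hx : M.f (M.f x) = x := M.inv x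
    rcases lt_trichotomy (arc a (M.f x)) (arc a b) with h | h | h
    · have := r1 _ k3 h
      rw [hx] at this; omega
    · have := inj _ _ h
      rw [this, hba] at hx
      subst hx; omega
    · rcases lt_trichotomy (arc a (M.f x)) (arc a c) with h' | h' | h'
      · have := r2 _ h h'
        rw [hx] at this; omega
      · have := inj _ _ h'
        rw [this, hcd] at hx
        subst hx; omega
      · rcases lt_or_eq_of_le k2 with h'' | h''
        · have := r3 _ h' h''
          rw [hx] at this; omega
        · have := inj _ _ h''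
          rw [this, hdc] at hx
          subst hx; omega
  -- linear form of the non-crossing property of `M`
  have lin : ∀ u x, arc a u < arc a x → arc a x < arc a (M.f u) →
      arc a u < arc a (M.f x) ∧ arc a (M.f x) < arc a (M.f u) := by
    intro u x k1 k2
    have e1 := pos u x k1.le
    have e2 := pos u (M.f u) (by omega)
    have := closed_edge M u x (by omega) (by omega)
    rcases le_or_gt (arc a u) (arc a (M.f x)) with h | h
    · have e3 := pos u (M.f x) h
      omega
    · have e3 := pos' u (M.f x) h
      have e4 := arc_lt a (M.f u)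
      omega
  -- linear form for `g`
  have glin : ∀ u x, arc a u < arc a x → arc a x < arc a (g u) →
      arc a u < arc a (g x) ∧ arc a (g x) < arc a (g u) := by
    intro u x k1 k2
    have hxu : x ≠ u := by rintro rfl; omega
    have hxg : x ≠ g u := by intro h; rw [← h] at k2; omega
    by_cases hua : u = a
    · subst hua
      rw [ga] at k2 hxg ⊢
      rw [ha0] at k1 ⊢
      by_cases hxb : x = b
      · subst hxb; rw [gb]; omega
      by_cases hxc : x = c
      · subst hxc; rw [gc]; omega
      have hxa : x ≠ u := hxu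
      rw [gx x hxa hxb hxc hxg]
      have nb : arc u x ≠ arc u b := fun h => hxb (inj _ _ h)
      have nc : arc u x ≠ arc u c := fun h => hxc (inj _ _ h)
      rcases lt_or_gt_of_ne nb with h | h
      · have := r1 x k1 h
        omega
      · rcases lt_or_gt_of_ne nc with h' | h'
        · have := r2 x h h'
          omega
        · have := r3 x h' k2
          omega
    by_cases hub : u = b
    · subst hub
      rw [gb] at k2 hxg ⊢
      have hxa : x ≠ a := by rintro rfl; omega
      have hxd : x ≠ d := by rintro rfl; omega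
      rw [gx x hxa hxu hxg hxd]
      have := r2 x k1 k2
      omega
    by_cases huc : u = c
    · subst huc
      rw [gc] at k2
      omega
    by_cases hud : u = d
    · subst hud
      rw [gd, ha0] at k2
      omega
    rw [gx u hua hub huc hud] at k2 hxg ⊢
    obtain ⟨f1, f2, f3, f4⟩ := fx u hua hub huc hud
    have l0 := lin u x k1 k2
    by_cases hxa : x = a
    · subst hxa; omega
    by_cases hxb : x = b
    · subst hxb
      rw [hba] at l0; omega
    by_cases hxc : x = c
    · subst hxc
      rw [gc]
      rw [hcd] at l0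
      -- `u` is before `c`, its partner after `d`
      have nb : arc a u ≠ arc a b := fun h => hub (inj _ _ h)
      rcases lt_or_gt_of_ne nb with h | h
      · have := r1 u (arc_pos (Ne.symm hua)) h
        omega
      · have := r2 u h (by omega)
        omega
    by_cases hxd : x = d
    · subst hxd
      rw [hdc] at l0
      rw [gd]
      have nb : arc a u ≠ arc a b := fun h => hub (inj _ _ h)
      rcases lt_or_gt_of_ne nb with h | h
      · have := r1 u (arc_pos (Ne.symm hua)) h
        omega
      · have := r2 u h (by omega)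
        omega
    rw [gx x hxa hxb hxc hxd]
    exact l0
  have ginv : ∀ x, g (g x) = x := by
    intro x
    by_cases hxa : x = a
    · rw [hxa, ga, gd]
    by_cases hxb : x = b
    · rw [hxb, gb, gc]
    by_cases hxc : x = c
    · rw [hxc, gc, gb]
    by_cases hxd : x = d
    · rw [hxd, gd, ga]
    obtain ⟨f1, f2, f3, f4⟩ := fx x hxa hxb hxc hxd
    rw [gx x hxa hxb hxc hxd, gx _ f1 f2 f3 f4, M.inv]
  have gne : ∀ x, g x ≠ x := by
    intro x
    by_cases hxa : x = a
    · rw [hxa, ga]; exact had.symm
    by_cases hxb : x = b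
    · rw [hxb, gb]; exact hbc.symm
    by_cases hxc : x = c
    · rw [hxc, gc]; exact hbc
    by_cases hxd : x = d
    · rw [hxd, gd]; exact had
    rw [gx x hxa hxb hxc hxd]
    exact M.ne x
  refine ⟨⟨g, ginv, gne, ?_⟩, ga, gb, gc, gd, gx⟩
  intro u x k1 k2
  -- from the linear form to the cyclic form
  have hux : u ≠ x := ne_of_arc_pos k1
  have hgu : g x ≠ g u := by
    intro h
    have : x = u := by rw [← ginv x, h, ginv]
    exact hux this.symm
  have hxgu : x ≠ g u := by rintro rfl; omega
  rcases lt_or_ge (arc a u) (arc a (g u)) with h | h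
  · -- `u` before `g u`
    have e1 := pos u (g u) h.le
    have k3 : arc a u < arc a x ∧ arc a x < arc a (g u) := by
      rcases le_or_gt (arc a u) (arc a x) with h' | h'
      · have e2 := pos u x h'
        omega
      · have e2 := pos' u x h'
        have e3 := arc_lt a (g u)
        omega
    have := glin u x k3.1 k3.2
    have e2 := pos u (g x) this.1.le
    omega
  · -- `g u` before `u`
    have h' : arc a (g u) < arc a u := lt_of_le_of_ne h (fun e => gne u (inj _ _ e))
    have e1 := pos' u (g u) h'
    have ggu : g (g u) = u := ginv u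
    -- `x` is not between `g u` and `u`
    have k3 : arc a x < arc a (g u) ∨ arc a u < arc a x := by
      by_contra hcon
      push Not at hcon
      have n1 : arc a x ≠ arc a (g u) := fun e => hxgu (inj _ _ e)
      have n2 : arc a u ≠ arc a x := fun e => hux (inj _ _ e)
      have e2 := pos' u x (by omega)
      omega
    have k4 : arc a (g x) < arc a (g u) ∨ arc a u < arc a (g x) := by
      by_contra hcon
      push Not at hcon
      have n1 : arc a (g x) ≠ arc a (g u) := fun e => hgu (inj _ _ e)
      have n2 : arc a (g x) ≠ arc a u := fun e => by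
        have h1 : g x = u := inj _ _ e
        have : x = g u := by rw [← h1, ginv]
        exact hxgu this
      have := glin (g u) (g x) (by omega) (by rw [ggu]; omega)
      rw [ggu, ginv] at this
      omega
    rcases k4 with k4 | k4
    · have e2 := pos' u (g x) (by omega)
      omega
    · have e2 := pos u (g x) k4.le
      have e3 := arc_lt a (g x)
      omega

theorem CFlip.symm {M M' : NCM n} (h : CFlip M M') : CFlip M' M := by
  obtain ⟨a, b, c, d, ⟨h1, h2, h3⟩, ⟨hab, hcd⟩, ⟨hbc, hda⟩, hx, k1, k2, k3, k4⟩ := h
  refine ⟨b, c, d, a, ?_, ⟨hbc, hda⟩, ⟨?_, ?_⟩, ?_, k2, k3, k4, k1⟩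
  · have e1 := arc_add a b c
    have e2 := arc_add a b d
    have e3 := arc_add a b a
    have e4 := arc_lt a c
    have e5 := arc_lt a d
    have e6 := arc_lt b c
    have e7 := arc_lt b d
    have e8 := arc_lt b a
    rw [arc_self] at e3
    omega
  · exact hcd
  · exact hab
  · intro x y1 y2 y3 y4
    exact (hx x y4 y1 y2 y3).symm

/-- `k` centered flips lead from the first to the second matching -/
def Steps : ℕ → NCM n → NCM n → Prop
  | 0 => fun M M' => M = M'
  | k + 1 => fun M M' => ∃ M₁, CFlip M M₁ ∧ Steps k M₁ M'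

/-- the star: all edges are `x, x + 1` with `x` even -/
def IsStar (M : NCM n) : Prop := ∀ x : ZMod (2 * n), x.val % 2 = 0 → arc x (M.f x) = 1

open Classical in
/-- The number of edges `a, f a` with `p` strictly inside their shorter arc, that is, which separate
`p` from the centre -/
noncomputable def depth (M : NCM n) (p : ZMod (2 * n)) : ℕ :=
  (Finset.univ.filter fun a => arc a (M.f a) < n ∧ 0 < arc a p ∧ arc a p < arc a (M.f a)).card

end basic

/-- Package PSI: every edge joins points of different parity, and the change of `Psi` in a centered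
flip `ab, cd → bc, da`. -/
def S_PSI : Prop := ∀ (n : ℕ) (_ : NeZero (2 * n)), Odd n →
  (∀ (M : NCM n) (x : ZMod (2 * n)), arc x (M.f x) % 2 = 1) ∧
  ∀ (M M' : NCM n) (a b c d : ZMod (2 * n)), 0 < arc a b → arc a b < arc a c → arc a c < arc a d →
    M.f a = b → M.f c = d → M'.f b = c → M'.f d = a →
    (∀ x, x ≠ a → x ≠ b → x ≠ c → x ≠ d → M'.f x = M.f x) →
    arc a b ≤ n → arc b c ≤ n → arc c d ≤ n → arc d a ≤ n →
    (a.val % 2 = 0 → (arc a b < n ∧ arc b c < n ∧ arc c d < n ∧ arc d a < n) →
      Psi M' = Psi M - 2 * n) ∧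
    (a.val % 2 = 0 → (arc a b = n ∨ arc b c = n ∨ arc c d = n ∨ arc d a = n) →
      Psi M' = Psi M + 2 * n) ∧
    (a.val % 2 = 1 → (arc a b < n ∧ arc b c < n ∧ arc c d < n ∧ arc d a < n) →
      Psi M' = Psi M + 2 * n) ∧
    (a.val % 2 = 1 → (arc a b = n ∨ arc b c = n ∨ arc c d = n ∨ arc d a = n) →
      Psi M' = Psi M - 2 * n)

/-- Package DESC: from a matching with a diameter one flip leads to the star, or three flips lead to
another matching with a diameter; `Psi` decreases in every flip. -/
def S_DESC : Prop := S_PSI → ∀ (n : ℕ) (_ : NeZero (2 * n)), Odd n → 3 ≤ n → ∀ M : NCM n, Diam M →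
  (∃ M₁, CFlip M M₁ ∧ IsStar M₁ ∧ Psi M₁ = Psi M - 2 * n) ∨
  ∃ M₁ M₂ M₃, CFlip M M₁ ∧ CFlip M₁ M₂ ∧ CFlip M₂ M₃ ∧ Diam M₃ ∧ Psi M₃ = Psi M - 6 * n

/-- Package OPEN: a diameter at the point `p` (or earlier another one) can be produced by
`max (depth p) (depth (p + n)) + 1` centered flips. -/
def S_OPEN : Prop := S_PSI → ∀ (n : ℕ) (_ : NeZero (2 * n)), Odd n → 3 ≤ n → ∀ (M : NCM n)
  (p : ZMod (2 * n)), ∃ k ≤ max (depth M p) (depth M (p + n)) + 1, ∃ M', Steps k M M' ∧ Diam M'

/-- Package COUNT: in a matching without a diameter there are two antipodal points of small depth. -/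
def S_COUNT : Prop := S_PSI → ∀ (n : ℕ) (_ : NeZero (2 * n)), Odd n → 3 ≤ n → ∀ M : NCM n, ¬ Diam M →
  ∃ p : ZMod (2 * n), depth M p ≤ n / 6 ∧ depth M (p + n) ≤ n / 6

end Pool.Agent.P8H54.CF
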